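import Pool.Agent.Y263.HT.Top
import Pool.Agent.Helper682.HU.HB5

set_option autoImplicit false

/-!
# MP_730078_an: unrestricted divergence almost everywhere

For every finite `p > 0` the unrestricted convergence of Q1 fails at almost every point, and for
almost all functions of `H^p`, for the light cones `C_n`, `n ≥ 3`, for their products with arbitrary
regular cones, for the cones of positive definite real symmetric and complex Hermitian matrices of
size at least two, and for all regular cones that have some `C_n` as a linear image with preimages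
of comparable norm. For arbitrary open `Γ` there is a dichotomy: either every `F ∈ H^p` is bounded
near almost every boundary point, or divergence almost everywhere is typical.

The starting theorem `LightConeUnrestricted` (divergence on a set of positive measure for `C_n`) is
used. New: (1) a random series of translates; one coefficient is resampled, which gives divergence
at almost every point; (2) a transference between cones: the function is lifted along a linear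
map and multiplied by a power of a nonvanishing function built from `N` independent functionals
that are nonnegative on the cone.

Parts of the library were written by helpers 259, 475, 794, 404, 232, 765, 420, 564, 236, 693, 932,
297, 363 and 115.
-/

namespace Pool.Agent.Results.MP_730078_an.DivergenceAlmostEverywhere

open MeasureTheory Filter Topology
open scoped ComplexOrder

/-- The point `x + i y`. -/
def pt {ι : Type} (x y : ι → ℝ) : ι → ℂ := fun k => (x k : ℂ) + (y k : ℂ) * Complex.I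

/-- `F ∈ H^p(T_Γ)`: holomorphic on the tube, and the integrals `∫ |F(x + i y)|^p dx` are bounded
uniformly in `y ∈ Γ`. -/
def InHardy {ι : Type} [Fintype ι] (Γ : Set (ι → ℝ)) (p : ℝ) (F : (ι → ℂ) → ℂ) : Prop :=
  DifferentiableOn ℂ F {z | (fun k => (z k).im) ∈ Γ} ∧
    ∃ C : ℝ, ∀ y ∈ Γ, ∫⁻ x : ι → ℝ, ‖F (pt x y)‖ₑ ^ p ≤ ENNReal.ofReal C

/-- `F (x + i y)` is unbounded, and has no limit, as `y → 0` in `Γ`. -/
def DivergesAt {ι : Type} [Fintype ι] (Γ : Set (ι → ℝ)) (F : (ι → ℂ) → ℂ) (x : ι → ℝ) : Prop :=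
  (∀ M δ : ℝ, 0 < δ → ∃ y ∈ Γ, ‖y‖ < δ ∧ M < ‖F (pt x y)‖) ∧
    ∀ l : ℂ, ¬ Tendsto (fun y : ι → ℝ => F (pt x y)) (𝓝[Γ] 0) (𝓝 l)

/-- Some `G ∈ H^p(T_Γ)` diverges at almost every point, and so does, for every `F ∈ H^p(T_Γ)` and
almost every real `c`, the function `F + c G ∈ H^p(T_Γ)`. -/
def TypicalDivergence {ι : Type} [Fintype ι] (Γ : Set (ι → ℝ)) (p : ℝ) : Prop :=
  ∃ G : (ι → ℂ) → ℂ, InHardy Γ p G ∧ (∀ᵐ x : ι → ℝ, DivergesAt Γ G x) ∧
    ∀ F : (ι → ℂ) → ℂ, InHardy Γ p F → ∀ᵐ c : ℝ,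
      InHardy Γ p (fun z => F z + (c : ℂ) * G z) ∧
      ∀ᵐ x : ι → ℝ, DivergesAt Γ (fun z => F z + (c : ℂ) * G z) x

/-- The light cone `C_n`, `n = m + 3` (the coordinates are numbered from `0`). -/
def lightCone (m : ℕ) : Set (Fin (m + 3) → ℝ) :=
  {y | 0 < y 0 ∧ 0 < y 0 ^ 2 - ∑ j : Fin (m + 2), y j.succ ^ 2}

/-- Nonempty open convex cones containing no entire straight line. -/
def IsRegularCone {ι : Type} [Fintype ι] (Γ : Set (ι → ℝ)) : Prop :=
  IsOpen Γ ∧ Convex ℝ Γ ∧ (∀ y ∈ Γ, ∀ t : ℝ, 0 < t → t • y ∈ Γ) ∧ Γ.Nonempty ∧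
    ¬ ∃ a v : ι → ℝ, v ≠ 0 ∧ ∀ t : ℝ, a + t • v ∈ Γ

/-- `Γ` is mapped onto `Γ₁` by `π`, and `y₁ ∈ Γ₁` has a preimage in `Γ` of norm at most `K ‖y₁‖`. -/
def MapsOnto {ι κ : Type} [Fintype ι] [Fintype κ] (Γ : Set (ι → ℝ)) (Γ₁ : Set (κ → ℝ))
    (π : (ι → ℝ) →ₗ[ℝ] (κ → ℝ)) : Prop :=
  (∀ y ∈ Γ, π y ∈ Γ₁) ∧ ∃ K : ℝ, ∀ y₁ ∈ Γ₁, ∃ y ∈ Γ, π y = y₁ ∧ ‖y‖ ≤ K * ‖y₁‖

/-- The product of two cones. -/
def prodCone {κ lam : Type} (Γ₁ : Set (κ → ℝ)) (Γ₂ : Set (lam → ℝ)) : Set (κ ⊕ lam → ℝ) :=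
  {y | (fun k => y (Sum.inl k)) ∈ Γ₁ ∧ (fun k => y (Sum.inr k)) ∈ Γ₂}

/-- The Hermitian matrix with real coordinates `y`: `A j j = y (j, j)` and
`A j k = y (j, k) + i y (k, j)` for `j < k`. -/
noncomputable def hermMat {n : ℕ} (y : Fin n × Fin n → ℝ) : Matrix (Fin n) (Fin n) ℂ :=
  Matrix.of fun j k =>
    if j < k then (y (j, k) : ℂ) + (y (k, j) : ℂ) * Complex.I
    else if k < j then (y (k, j) : ℂ) - (y (j, k) : ℂ) * Complex.I
    else (y (j, j) : ℂ)

/-- The real symmetric matrix of size `r + 2` with coordinates `y`: the upper left `2 × 2` block is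
`(y₀ + y₁, y₂; y₂, y₀ - y₁)`, the other entries are `A i j = A j i = y (i, j)`, `i ≤ j`; the set
`Off r` consists of these pairs, see `Pool/Agent/Y263/HT/Stm.lean`. -/
abbrev symMat (r : ℕ) (y : Fin 3 ⊕ Pool.Agent.Y263.HT.Off r → ℝ) :
    Matrix (Fin (r + 2)) (Fin (r + 2)) ℝ := Pool.Agent.Y263.HT.symMat r y

theorem start : Pool.Agent.Y263.HT.START := by
  intro m p hp
  obtain ⟨F, hF, E, hE, hE0, hEu⟩ := Pool.Agent.Helper682.HU.main_all m p hp
  exact ⟨F, hF, E, hE, hE0, fun x hx => (hEu x hx).1⟩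

/-- **Unrestricted divergence almost everywhere.** -/
theorem result :
    (∀ (ι : Type) [Fintype ι] (Γ : Set (ι → ℝ)) (p : ℝ), IsOpen Γ → 0 < p →
      (∀ F : (ι → ℂ) → ℂ, InHardy Γ p F → ∀ᵐ x : ι → ℝ,
        ∃ M δ : ℝ, 0 < δ ∧ ∀ y ∈ Γ, ‖y‖ < δ → ‖F (pt x y)‖ ≤ M) ∨ TypicalDivergence Γ p) ∧
    (∀ (m : ℕ) (p : ℝ), 0 < p → TypicalDivergence (lightCone m) p) ∧
    (∀ (ι : Type) [Fintype ι] (Γ : Set (ι → ℝ)) (m : ℕ)
      (π : (ι → ℝ) →ₗ[ℝ] (Fin (m + 3) → ℝ)) (p : ℝ), IsRegularCone Γ →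
      MapsOnto Γ (lightCone m) π → 0 < p → TypicalDivergence Γ p) ∧
    (∀ (ι : Type) [Fintype ι] (Γ : Set (ι → ℝ)) (m : ℕ) (p : ℝ), IsRegularCone Γ → 0 < p →
      TypicalDivergence (prodCone (lightCone m) Γ) p) ∧
    (∀ (r : ℕ) (p : ℝ), 0 < p →
      TypicalDivergence {y : Fin 3 ⊕ Pool.Agent.Y263.HT.Off r → ℝ | (symMat r y).PosDef} p ∧
      TypicalDivergence {y : Fin (r + 2) × Fin (r + 2) → ℝ | (hermMat y).PosDef} p) := by
  refine ⟨?_, ?_, ?_, ?_, ?_⟩
  · intro ι _ Γ p hΓ hp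
    exact Pool.Agent.Y263.HT.dich Γ hΓ p hp
  · intro m p hp
    exact Pool.Agent.Y263.HT.div_of_unb (Pool.Agent.Y263.HT.t_LCR m).1 hp
      (Pool.Agent.Y263.HT.light start m p hp)
  · intro ι _ Γ m π p hΓ hπ hp
    exact Pool.Agent.Y263.HT.general start Γ hΓ m π hπ p hp
  · intro ι _ Γ m p hΓ hp
    exact Pool.Agent.Y263.HT.prods start Γ hΓ m p hp
  · intro r p hp
    exact ⟨Pool.Agent.Y263.HT.symm start r p hp, Pool.Agent.Y263.HT.herm start r p hp⟩

end Pool.Agent.Results.MP_730078_an.DivergenceAlmostEverywhere
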